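import Pool.Agent.MP_cce4c9_lc.H87.SpecQ
import Pool.Agent.MP_cce4c9_lc.H87.KitA

/-!
The different of the curve `f(x_0) = ... = f(x_(m-1)) = t` lies in the conductor, in both charts.
-/

set_option autoImplicit false

open Polynomial Finset

namespace Pool.Agent.MP_cce4c9_lc.H6

open H87 H87.Cv

/-- Euler's formula for the dual basis of the power basis. -/
theorem euler {Ω : Type} [Field Ω] [DecidableEq Ω] (P : Polynomial Ω) (d : ℕ) (Z : Finset Ω)
    (hP : P.natDegree = d) (hZ : Z.card = d) (hr : ∀ ξ ∈ Z, P.IsRoot ξ)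
    (hs : ∀ ξ ∈ Z, (derivative P).eval ξ ≠ 0) {b c : ℕ} (hc : c < d) :
    ∑ ξ ∈ Z, ξ ^ c * ((derivative P).eval ξ)⁻¹ * (P /ₘ (X - C ξ)).coeff b =
      if b = c then 1 else 0 := by
  have h1 : ∑ ξ ∈ Z, C (ξ ^ c * ((derivative P).eval ξ)⁻¹) * (P /ₘ (X - C ξ)) = X ^ c := by
    apply eq_of_degrees_lt_of_eval_finset_eq Z
    · rw [hZ]
      refine lt_of_le_of_lt (degree_sum_le _ _) ((Finset.sup_lt_iff (WithBot.bot_lt_coe _)).2 ?_)
      intro ξ _
      refine lt_of_le_of_lt (degree_mul_le _ _) ?_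
      refine lt_of_le_of_lt (add_le_add degree_C_le degree_le_natDegree) ?_
      rw [zero_add, natDegree_divByMonic _ (monic_X_sub_C ξ), natDegree_X_sub_C, hP]
      exact_mod_cast (show d - 1 < d by omega)
    · rw [hZ, degree_X_pow]; exact_mod_cast hc
    · intro η hη
      rw [eval_finsetSum, Finset.sum_eq_single η]
      · have h2 := mul_divByMonic_eq_iff_isRoot.2 (hr η hη)
        have h3 : (derivative P).eval η = (P /ₘ (X - C η)).eval η := by
          conv_lhs => rw [← h2]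
          simp
        rw [eval_mul, eval_C, ← h3, mul_assoc, inv_mul_cancel₀ (hs η hη)]
        simp
      · intro ξ hξ hne
        have h2 := congrArg (eval η) (mul_divByMonic_eq_iff_isRoot.2 (hr ξ hξ))
        rw [eval_mul, (hr η hη).eq_zero, eval_sub, eval_X, eval_C] at h2
        rw [eval_mul, (mul_eq_zero.1 h2).resolve_left (sub_ne_zero.2 hne.symm), mul_zero]
      · intro h; exact absurd hη h
  have h2 := congrArg (fun q => coeff q b) h1
  simp only [finsetSum_coeff, coeff_C_mul, coeff_X_pow] at h2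
  exact h2

section Val

variable {k Ω : Type} [Field k] [Field Ω] [Algebra k Ω]

/-- A valuation ring centred at the zero of a transcendental element. -/
theorem exists_val {τ : Ω} (hτ : Transcendental k τ) :
    ∃ O : ValuationSubring Ω, (∀ c : k, algebraMap k Ω c ∈ O) ∧ O.valuation τ < 1 := by
  let A : Subring Ω := (aeval τ : k[X] →ₐ[k] Ω).range.toSubring
  let τ' : A := ⟨τ, ⟨X, by simp⟩⟩
  have hI : Ideal.span {τ'} ≠ ⊤ := by
    intro h
    rw [Ideal.span_singleton_eq_top] at h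
    obtain ⟨⟨u, p, hp⟩, hu⟩ := h.exists_right_inv
    have h1 : τ * u = 1 := congrArg Subtype.val hu
    refine hτ ⟨X * p - 1, fun h0 => ?_, ?_⟩
    · have := congrArg (eval 0) h0
      simp at this
    · have hp' : aeval τ p = u := hp
      rw [map_sub, map_mul, aeval_X, hp', h1, map_one, sub_self]
  obtain ⟨O, h1, h2⟩ := Ideal.image_subset_nonunits_valuationSubring _ hI
  refine ⟨O, fun c => h1 (show algebraMap k Ω c ∈ A from ⟨C c, by simp⟩), ?_⟩
  exact O.mem_nonunits_iff.1 (h2 ⟨τ', Ideal.subset_span rfl, rfl⟩)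

theorem aeval_mem {O : ValuationSubring Ω} (hk : ∀ c : k, algebraMap k Ω c ∈ O) {τ : Ω}
    (hτ : τ ∈ O) (p : k[X]) : aeval τ p ∈ O := by
  rw [aeval_eq_sum_range]
  refine sum_mem fun i _ => ?_
  rw [Algebra.smul_def]
  exact mul_mem (hk _) (pow_mem hτ _)

theorem val_const {O : ValuationSubring Ω} (hk : ∀ c : k, algebraMap k Ω c ∈ O) {c : k}
    (hc : c ≠ 0) : O.valuation (algebraMap k Ω c) = 1 := by
  have h1 := (O.valuation_le_one_iff _).2 (hk c)
  have h2 := (O.valuation_le_one_iff _).2 (hk c⁻¹)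
  rw [map_inv₀, map_inv₀] at h2
  have h0 : 0 < O.valuation (algebraMap k Ω c) := by
    rw [zero_lt_iff, Valuation.ne_zero_iff]
    exact (_root_.map_ne_zero _).2 hc
  exact le_antisymm h1 ((inv_le_one₀ h0).1 h2)

theorem val_sub_lt {O : ValuationSubring Ω} (hk : ∀ c : k, algebraMap k Ω c ∈ O) {τ : Ω} {c : k}
    (hτ : O.valuation (τ - algebraMap k Ω c) < 1) (p : k[X]) :
    O.valuation (aeval τ p - algebraMap k Ω (p.eval c)) < 1 := by
  have hτO : τ ∈ O := by
    have := add_mem ((O.valuation_le_one_iff _).1 hτ.le) (hk c)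
    rwa [sub_add_cancel] at this
  obtain ⟨q, hq⟩ := X_sub_C_dvd_sub_C_eval (p := p) (a := c)
  have h1 := congrArg (aeval τ) hq
  rw [map_sub, map_mul, map_sub, aeval_X, aeval_C, aeval_C] at h1
  rw [h1, map_mul]
  exact mul_lt_one_of_lt_of_le hτ ((O.valuation_le_one_iff _).2 (aeval_mem hk hτO q))

theorem val_aeval_one {O : ValuationSubring Ω} (hk : ∀ c : k, algebraMap k Ω c ∈ O) {τ : Ω}
    {c : k} (hτ : O.valuation (τ - algebraMap k Ω c) < 1) {p : k[X]} (hp : p.eval c ≠ 0) :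
    O.valuation (aeval τ p) = 1 := by
  have h := O.valuation.map_add_eq_of_lt_right (x := aeval τ p - algebraMap k Ω (p.eval c))
    (y := algebraMap k Ω (p.eval c)) (by rw [val_const hk hp]; exact val_sub_lt hk hτ p)
  rwa [sub_add_cancel, val_const hk hp] at h

variable [Algebra (RatFunc k) Ω] [IsScalarTower k (RatFunc k) Ω]

theorem aeval_T (A : Type) [CommRing A] [Algebra k A] [Algebra (RatFunc k) A]
    [IsScalarTower k (RatFunc k) A] (r : RatFunc k) (p : k[X]) :
    aeval (algebraMap (RatFunc k) A r) p = algebraMap (RatFunc k) A (aeval r p) :=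
  aeval_algebraMap_apply A r p

theorem transc_T {r : RatFunc k} (hr : Transcendental k r) :
    Transcendental k (algebraMap (RatFunc k) Ω r) :=
  (transcendental_algebraMap_iff (algebraMap (RatFunc k) Ω).injective).2 hr

/-- A rational function without finite poles is a polynomial. -/
theorem poly_of_val [IsAlgClosed k] (a : RatFunc k)
    (h : ∀ O : ValuationSubring Ω, (∀ c : k, algebraMap k Ω c ∈ O) →
      algebraMap (RatFunc k) Ω RatFunc.X ∈ O → algebraMap (RatFunc k) Ω a ∈ O) :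
    ∃ p : k[X], a = aeval RatFunc.X p := by
  have hq : a * aeval RatFunc.X a.denom = aeval RatFunc.X a.num := by
    rw [RatFunc.aeval_X_left_eq_algebraMap, RatFunc.aeval_X_left_eq_algebraMap]
    conv_lhs => rw [← a.num_div_denom]
    rw [RatFunc.num_div_denom, ← eq_div_iff (RatFunc.algebraMap_ne_zero a.denom_ne_zero),
      RatFunc.num_div_denom]
  by_cases hd : a.denom.degree = 0
  · have h1 : a.denom = 1 := (a.monic_denom.degree_le_zero_iff_eq_one).1 hd.le
    exact ⟨a.num, by rw [← hq, h1, map_one, mul_one]⟩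
  exfalso
  obtain ⟨c, hc⟩ := IsAlgClosed.exists_root a.denom hd
  have hn : a.num.eval c ≠ 0 := by
    have := aeval_ne_zero_of_isCoprime a.isCoprime_num_denom c
    simp only [coe_aeval_eq_eval] at this
    exact this.resolve_right (not_not.2 hc)
  have ht : Transcendental k
      (algebraMap (RatFunc k) Ω RatFunc.X - algebraMap k Ω c) := by
    intro h0
    refine transc_T (Ω := Ω) (RatFunc.transcendental_X (K := k)) ?_
    have := h0.isIntegral.add (isIntegral_algebraMap (R := k) (A := Ω) (x := c))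
    rw [sub_add_cancel] at this
    exact this.isAlgebraic
  obtain ⟨O, hk, hO⟩ := exists_val ht
  have hT : algebraMap (RatFunc k) Ω RatFunc.X ∈ O := by
    have := add_mem ((O.valuation_le_one_iff _).1 hO.le) (hk c)
    rwa [sub_add_cancel] at this
  have h1 := val_aeval_one hk hO hn
  have h2 := val_sub_lt hk hO a.denom
  rw [hc.eq_zero, map_zero, sub_zero] at h2
  rw [aeval_T, ← hq, map_mul, map_mul, ← aeval_T, mul_comm] at h1
  exact (mul_lt_one_of_lt_of_le h2 ((O.valuation_le_one_iff _).2 (h O hk hT))).ne h1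

/-- A rational function without a pole at infinity. -/
theorem loc_of_val (a : RatFunc k)
    (h : ∀ O : ValuationSubring Ω, (∀ c : k, algebraMap k Ω c ∈ O) →
      algebraMap (RatFunc k) Ω RatFunc.X ∉ O → algebraMap (RatFunc k) Ω a ∈ O) :
    ∃ g p : k[X], g.eval 0 ≠ 0 ∧
      aeval (RatFunc.X⁻¹ : RatFunc k) g * a = aeval (RatFunc.X⁻¹ : RatFunc k) p := by
  have hX : (RatFunc.X : RatFunc k) ≠ 0 := RatFunc.X_ne_zero
  have hrev : ∀ p : k[X], aeval (RatFunc.X⁻¹ : RatFunc k) p.reverse =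
      aeval RatFunc.X p * (RatFunc.X⁻¹ : RatFunc k) ^ p.natDegree := by
    intro p
    let _ := invertibleOfNonzero hX
    have := eval₂_reverse_mul_pow (algebraMap k (RatFunc k)) RatFunc.X p
    rw [invOf_eq_inv, ← aeval_def, ← aeval_def] at this
    rw [← this, mul_assoc, ← mul_pow, mul_inv_cancel₀ hX, one_pow, mul_one]
  have hq : a * aeval RatFunc.X a.denom = aeval RatFunc.X a.num := by
    rw [RatFunc.aeval_X_left_eq_algebraMap, RatFunc.aeval_X_left_eq_algebraMap]
    rw [← eq_div_iff (RatFunc.algebraMap_ne_zero a.denom_ne_zero), RatFunc.num_div_denom]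
  have hev : ∀ p : k[X], p ≠ 0 → p.reverse.eval 0 ≠ 0 := fun p hp => by
    rw [← coeff_zero_eq_eval_zero, coeff_zero_reverse]
    exact leadingCoeff_ne_zero.2 hp
  by_cases hle : a.num.natDegree ≤ a.denom.natDegree
  · refine ⟨a.denom.reverse, a.num.reverse * X ^ (a.denom.natDegree - a.num.natDegree),
      hev _ a.denom_ne_zero, ?_⟩
    rw [map_mul, map_pow, aeval_X, hrev, hrev, ← hq, mul_assoc, mul_assoc, mul_assoc, ← pow_add,
      Nat.add_sub_cancel' hle]
    ring
  exfalso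
  have hn : a.num ≠ 0 := fun h0 => hle (by simp [h0])
  obtain ⟨e, he⟩ := Nat.exists_eq_add_of_lt (not_le.1 hle)
  have ht : Transcendental k (algebraMap (RatFunc k) Ω RatFunc.X⁻¹) :=
    transc_T fun h0 => RatFunc.transcendental_X (by simpa using h0.inv)
  obtain ⟨O, hk, hO⟩ := exists_val ht
  have hT : algebraMap (RatFunc k) Ω RatFunc.X ∉ O := by
    intro hT
    have h1 := mul_lt_one_of_lt_of_le hO ((O.valuation_le_one_iff _).2 hT)
    rw [← map_mul, ← map_mul, inv_mul_cancel₀ hX, map_one, map_one] at h1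
    exact lt_irrefl _ h1
  have hO' : O.valuation (algebraMap (RatFunc k) Ω RatFunc.X⁻¹ - algebraMap k Ω 0) < 1 := by
    rwa [map_zero, sub_zero]
  have h1 := val_aeval_one hk hO' (hev _ hn)
  have h2 := val_aeval_one hk hO' (hev _ a.denom_ne_zero)
  have h3 : aeval (RatFunc.X⁻¹ : RatFunc k) a.num.reverse = RatFunc.X⁻¹ *
      (RatFunc.X⁻¹ ^ e * a * aeval (RatFunc.X⁻¹ : RatFunc k) a.denom.reverse) := by
    rw [hrev, hrev, ← hq, he]; ring
  rw [aeval_T, h3, map_mul, map_mul, map_mul, map_mul, map_mul, map_mul, ← aeval_T, h2, mul_one,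
    map_pow, map_pow] at h1
  refine (mul_lt_one_of_lt_of_le hO ?_).ne h1
  exact mul_le_one' (pow_le_one' hO.le _) ((O.valuation_le_one_iff _).2 (h O hk hT))

end Val

section Main

variable {k : Type} [Field k] [IsAlgClosed k] {d m : ℕ} {f : k[X]} (C : Cv k d m f)

theorem sum_dig (hd : 0 < d) (J : ℕ) :
    ds d m J ≤ w0 d m ∧ w0 d m - ds d m J = ∑ i ∈ range m, (d - 1 - dig d J i) := by
  have h : ∑ i ∈ range m, (d - 1 - dig d J i) + ds d m J = w0 d m := by
    rw [ds_eq, ← sum_add_distrib, w0, ← smul_eq_mul, ← card_range m, ← sum_const, card_range]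
    refine sum_congr rfl fun i _ => ?_
    have := dig_lt hd J i
    omega
  omega

omit [IsAlgClosed k] in
/-- The coefficients of `dl * y` are integral wherever all conjugates of `y` are. -/
theorem coef_mem {Ω : Type} [Field Ω] [IsAlgClosed Ω] [Algebra k Ω] [Algebra (RatFunc k) Ω]
    [IsScalarTower k (RatFunc k) Ω] (hU : IsUnit C.dl) (y : C.Q) (a : ℕ → RatFunc k)
    (ha : C.dl * y = ∑ J ∈ range (d ^ m),
      algebraMap (RatFunc k) C.Q (a J) * ∏ i ∈ range m, C.x i ^ dig d J i)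
    (O : ValuationSubring Ω) (w : Ω) (hk : ∀ c : k, algebraMap k Ω c ∈ O) (hw : w ∈ O)
    (hφ : ∀ φ : C.Q →ₐ[RatFunc k] Ω, φ y ∈ O ∧ ∀ i < m, φ (C.x i) * w ∈ O)
    {J : ℕ} (hJ : J < d ^ m) :
    algebraMap (RatFunc k) Ω (a J) * w ^ (w0 d m - ds d m J) ∈ O := by
  classical
  have hd : 0 < d := lt_of_lt_of_le two_pos C.hd
  set T : Ω := algebraMap (RatFunc k) Ω RatFunc.X with hT
  set P : Polynomial Ω := f.map (algebraMap k Ω) - Polynomial.C T with hP
  have hPd : P.natDegree = d := by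
    rw [hP, natDegree_sub_C, natDegree_map, C.deg]
  have hP0 : P ≠ 0 := fun h => by rw [h, natDegree_zero] at hPd; omega
  have hroot : ∀ ξ : Ω, P.IsRoot ξ ↔ aeval ξ f = T := fun ξ => by
    rw [IsRoot.def, hP, eval_sub, eval_C, eval_map_algebraMap, sub_eq_zero]
  have hder : ∀ ξ : Ω, (derivative P).eval ξ = aeval ξ (derivative f) := fun ξ => by
    rw [hP, derivative_sub, derivative_C, sub_zero, derivative_map, eval_map_algebraMap]
  have hφae : ∀ (φ : C.Q →ₐ[RatFunc k] Ω) (z : C.Q) (p : k[X]),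
      φ (aeval z p) = aeval (φ z) p := fun φ z p =>
    (aeval_algHom_apply (φ.restrictScalars k) z p).symm
  have hφdl : ∀ φ : C.Q →ₐ[RatFunc k] Ω,
      φ C.dl = ∏ i ∈ range m, (derivative P).eval (φ (C.x i)) := fun φ => by
    rw [Cv.dl, map_prod]
    exact prod_congr rfl fun i _ => by rw [hφae, hder]
  have hone : ∀ ξ : Ω, P.IsRoot ξ → (derivative P).eval ξ ≠ 0 ∧ ξ * w ∈ O := fun ξ hξ => by
    obtain ⟨φ, h⟩ := C.lift Ω (fun _ => ξ) fun _ _ => (hroot ξ).1 hξ
    have h1 := (hU.map φ).ne_zero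
    rw [hφdl, prod_ne_zero_iff] at h1
    have h2 := h1 0 (mem_range.2 C.hm)
    have h3 := (hφ φ).2 0 C.hm
    rw [h 0 C.hm] at h2 h3
    exact ⟨h2, h3⟩
  have hsep : P.Separable := by
    rw [separable_def, isCoprime_iff_aeval_ne_zero_of_isAlgClosed Ω Ω]
    intro ξ
    simp only [coe_aeval_eq_eval]
    by_cases h : P.IsRoot ξ
    · exact Or.inr (hone ξ h).1
    · exact Or.inl h
  set Z : Finset Ω := P.roots.toFinset with hZ
  have hZc : Z.card = d := by
    rw [hZ, Multiset.toFinset_card_of_nodup (nodup_roots hsep),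
      IsAlgClosed.card_roots_eq_natDegree, hPd]
  have hZr : ∀ ξ ∈ Z, P.IsRoot ξ := fun ξ hξ => by
    rwa [hZ, Multiset.mem_toFinset, mem_roots hP0] at hξ
  have hq : ∀ ξ ∈ Z, ∀ b < d, (P /ₘ (X - Polynomial.C ξ)).coeff b * w ^ (d - 1 - b) ∈ O := by
    intro ξ hξ b hb
    rw [coeff_divByMonic_X_sub_C, hPd, sum_mul]
    refine sum_mem fun i hi => ?_
    rw [mem_Icc] at hi
    have h1 : P.coeff i = algebraMap k Ω (f.coeff i) := by
      rw [hP, coeff_sub, coeff_map, coeff_C, if_neg (by omega), sub_zero]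
    rw [h1, show d - 1 - b = (i - (b + 1)) + (d - i) by omega, pow_add,
      show ξ ^ (i - (b + 1)) * algebraMap k Ω (f.coeff i) * (w ^ (i - (b + 1)) * w ^ (d - i)) =
        (ξ * w) ^ (i - (b + 1)) * algebraMap k Ω (f.coeff i) * w ^ (d - i) by ring]
    exact mul_mem (mul_mem (pow_mem (hone ξ (hZr ξ hξ)).2 _) (hk _)) (pow_mem hw _)
  have hl : ∀ r : Fin m → Ω, ∃ φ : C.Q →ₐ[RatFunc k] Ω, r ∈ Fintype.piFinset (fun _ => Z) →
      ∀ i : Fin m, φ (C.x i) = r i := by
    intro r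
    by_cases hr : r ∈ Fintype.piFinset (fun _ : Fin m => Z)
    · obtain ⟨φ, h⟩ := C.lift Ω (ex r) fun i hi => by
        rw [ex, dif_pos hi]
        exact (hroot _).1 (hZr _ (Fintype.mem_piFinset.1 hr _))
      exact ⟨φ, fun _ i => by rw [h i i.2, ex, dif_pos i.2]⟩
    · obtain ⟨ξ, hξ⟩ : Z.Nonempty := card_pos.1 (by omega)
      obtain ⟨φ, _⟩ := C.lift Ω (fun _ => ξ) fun _ _ => (hroot ξ).1 (hZr ξ hξ)
      exact ⟨φ, fun h => absurd h hr⟩
  choose φ hφx using hl
  have hy : ∀ r ∈ Fintype.piFinset (fun _ : Fin m => Z), φ r y = ∑ J' ∈ range (d ^ m),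
      algebraMap (RatFunc k) Ω (a J') *
        ∏ i : Fin m, r i ^ dig d J' i * ((derivative P).eval (r i))⁻¹ := by
    intro r hr
    have h1 := congrArg (φ r) ha
    rw [map_mul, hφdl, map_sum, prod_range] at h1
    simp only [map_mul, AlgHom.commutes, map_prod, map_pow, prod_range, hφx r hr] at h1
    have h2 : ∏ i : Fin m, (derivative P).eval (r i) ≠ 0 :=
      prod_ne_zero_iff.2 fun i _ => (hone _ (hZr _ (Fintype.mem_piFinset.1 hr i))).1
    rw [mul_comm, ← eq_mul_inv_iff_mul_eq₀ h2, sum_mul] at h1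
    rw [h1]
    refine sum_congr rfl fun J' _ => ?_
    rw [prod_mul_distrib, prod_inv_distrib, mul_assoc]
  have key : algebraMap (RatFunc k) Ω (a J) = ∑ r ∈ Fintype.piFinset (fun _ : Fin m => Z),
      φ r y * ∏ i : Fin m, (P /ₘ (X - Polynomial.C (r i))).coeff (dig d J i) := by
    rw [sum_congr rfl fun r hr => by rw [hy r hr, sum_mul], sum_comm]
    have h1 : ∀ J' ∈ range (d ^ m), ∑ r ∈ Fintype.piFinset (fun _ : Fin m => Z),
        (algebraMap (RatFunc k) Ω (a J') *
          ∏ i : Fin m, r i ^ dig d J' i * ((derivative P).eval (r i))⁻¹) *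
          ∏ i : Fin m, (P /ₘ (X - Polynomial.C (r i))).coeff (dig d J i) =
        if J' = J then algebraMap (RatFunc k) Ω (a J') else 0 := by
      intro J' hJ'
      simp only [mul_assoc, ← prod_mul_distrib]
      rw [← mul_sum, ← prod_univ_sum (fun _ : Fin m => Z) fun i ξ =>
        ξ ^ dig d J' i * (((derivative P).eval ξ)⁻¹ *
          (P /ₘ (X - Polynomial.C ξ)).coeff (dig d J i))]
      simp only [← mul_assoc]
      rw [prod_congr rfl fun (i : Fin m) _ => euler P d Z hPd hZc hZr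
        (fun ξ hξ => (hone ξ (hZr ξ hξ)).1) (b := dig d J i) (dig_lt hd J' i)]
      split_ifs with h
      · subst h; simp
      · obtain ⟨i, hi, hne⟩ : ∃ i < m, dig d J i ≠ dig d J' i := by
          by_contra hc
          push Not at hc
          exact h (eq_of_dig hJ (mem_range.1 hJ') hc).symm
        rw [prod_eq_zero (mem_univ (⟨i, hi⟩ : Fin m)) (if_neg hne), mul_zero]
    rw [sum_congr rfl h1, sum_ite_eq', if_pos (mem_range.2 hJ)]
  rw [key, (sum_dig hd J).2, sum_mul]
  refine sum_mem fun r hr => ?_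
  rw [sum_range, ← prod_pow_eq_pow_sum, mul_assoc, ← prod_mul_distrib]
  exact mul_mem (hφ _).1 (prod_mem fun i _ =>
    hq _ (Fintype.mem_piFinset.1 hr i) _ (dig_lt hd J i))

theorem co_fin (hQ : C.QA) (hH : C.HA) (y : C.Q)
    (hy : ∀ v : Place k C.Q, v.val C.t ≤ 1 → v.val y ≤ 1) : C.dl * y ∈ C.AA := by
  obtain ⟨a, ha⟩ := C.spn (C.dl * y)
  have hx : ∀ i < m, C.x i ∈ C.AA := fun i hi => Algebra.subset_adjoin ⟨i, hi, rfl⟩
  rw [ha]
  refine sum_mem fun J hJ => mul_mem ?_ (prod_mem fun i hi => pow_mem (hx i (mem_range.1 hi)) _)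
  obtain ⟨p, hp⟩ := poly_of_val (Ω := AlgebraicClosure (RatFunc k)) (a J) fun O hk hT => by
    by_cases hO : ∃ r : RatFunc k, algebraMap (RatFunc k) (AlgebraicClosure (RatFunc k)) r ∉ O
    · have := coef_mem C hH.dlU y a ha O 1 hk (one_mem _) (fun φ => ?_) (mem_range.1 hJ)
      · rwa [one_pow, mul_one] at this
      obtain ⟨v, hv⟩ := hQ.pb _ φ O hk hO
      have ht : v.val C.t ≤ 1 := (hv _).1.2 (by rw [Cv.t, AlgHom.commutes]; exact hT)
      refine ⟨(hv _).1.1 (hy v ht), fun i hi => ?_⟩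
      rw [mul_one]
      exact (hv _).1.1 (hH.finA v ht _ (hx i hi))
    · push Not at hO
      exact hO _
  rw [hp, ← aeval_T, aeval_eq_sum_range]
  exact sum_mem fun i _ => Subalgebra.smul_mem _ (pow_mem hH.tA _) _

omit [IsAlgClosed k] in
theorem co_inf (hQ : C.QA) (hH : C.HA) (y : C.Q)
    (hy : ∀ v : Place k C.Q, 1 < v.val C.t → v.val y ≤ 1) :
    ∃ g : k[X], g.eval 0 ≠ 0 ∧ aeval C.s g * (C.dlh * y) ∈ C.AI := by
  have hd : 0 < d := lt_of_lt_of_le two_pos C.hd
  obtain ⟨a, ha⟩ := C.spn (C.dl * y)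
  have hs : C.s ∈ C.AI := Algebra.subset_adjoin (Set.mem_insert _ _)
  have hY : ∀ i < m, C.Y i ∈ C.AI := fun i hi =>
    Algebra.subset_adjoin (Set.mem_insert_of_mem _ ⟨i, hi, rfl⟩)
  have hae : ∀ p : k[X], aeval C.s p ∈ C.AI := fun p => by
    rw [aeval_eq_sum_range]
    exact sum_mem fun i _ => Subalgebra.smul_mem _ (pow_mem hs _) _
  rw [Cv.dlh, mul_assoc, ha, mul_sum]
  refine sum_induction _ (fun z => ∃ g : k[X], g.eval 0 ≠ 0 ∧ aeval C.s g * z ∈ C.AI) ?_
    ⟨1, by simp, by simp⟩ fun J hJ => ?_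
  · rintro z z' ⟨g, hg, h⟩ ⟨g', hg', h'⟩
    refine ⟨g * g', by rw [eval_mul]; exact mul_ne_zero hg hg', ?_⟩
    rw [map_mul, show aeval C.s g * aeval C.s g' * (z + z') =
      aeval C.s g' * (aeval C.s g * z) + aeval C.s g * (aeval C.s g' * z') by ring]
    exact add_mem (mul_mem (hae _) h) (mul_mem (hae _) h')
  obtain ⟨g, p, hg, hp⟩ := loc_of_val (Ω := AlgebraicClosure (RatFunc k))
    (a J * RatFunc.X⁻¹ ^ (w0 d m - ds d m J)) fun O hk hT => by
    rw [map_mul, map_pow]
    have hw : algebraMap (RatFunc k) (AlgebraicClosure (RatFunc k)) RatFunc.X⁻¹ ∈ O := by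
      rw [map_inv₀]
      exact (O.mem_or_inv_mem _).resolve_left hT
    refine coef_mem C hH.dlU y a ha O _ hk hw (fun φ => ?_) (mem_range.1 hJ)
    obtain ⟨v, hv⟩ := hQ.pb _ φ O hk ⟨_, hT⟩
    have ht : 1 < v.val C.t := not_le.1 fun h => hT (by
      have := (hv _).1.1 h
      rwa [Cv.t, AlgHom.commutes] at this)
    refine ⟨(hv _).1.1 (hy v ht), fun i hi => ?_⟩
    have := (hv _).1.1 ((hH.infI v ht).2.1 i hi).le
    rwa [Cv.Y, map_mul, Cv.s, AlgHom.commutes] at this
  refine ⟨g, hg, ?_⟩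
  have h1 := congrArg (algebraMap (RatFunc k) C.Q) hp
  rw [map_mul, map_mul, map_pow, ← aeval_T, ← aeval_T] at h1
  change aeval C.s g * (_ * C.s ^ _) = aeval C.s p at h1
  have h2 : ∏ i ∈ range m, C.Y i ^ dig d J i =
      C.s ^ ds d m J * ∏ i ∈ range m, C.x i ^ dig d J i := by
    rw [ds_eq, ← prod_pow_eq_pow_sum, ← prod_mul_distrib]
    exact prod_congr rfl fun i _ => by rw [Cv.Y, mul_pow, mul_comm]
  have h3 : C.s ^ w0 d m = C.s ^ (w0 d m - ds d m J) * C.s ^ ds d m J := by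
    rw [← pow_add, Nat.sub_add_cancel (sum_dig hd J).1]
  have h4 : aeval C.s g * (C.s ^ w0 d m * (algebraMap (RatFunc k) C.Q (a J) *
      ∏ i ∈ range m, C.x i ^ dig d J i)) = aeval C.s p * ∏ i ∈ range m, C.Y i ^ dig d J i := by
    rw [← h1, h2, h3]; ring
  rw [h4]
  exact mul_mem (hae p) (prod_mem fun i hi => pow_mem (hY i (mem_range.1 hi)) _)

end Main

theorem co : StmtCO := fun _ _ _ _ _ _ C hQ hH => ⟨co_fin C hQ hH, co_inf C hQ hH⟩

end Pool.Agent.MP_cce4c9_lc.H6
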